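import Pool.Agent.Helper38.Weiss.Api
import Pool.Agent.Helper42.Weiss.Basic

open Set Filter Topology MeasureTheory Pool.Agent.Helper38.Weiss

namespace Pool.Agent.Helper50.Weiss

open Pool.Agent.Helper42.Weiss (IsEquivMetric sepNum HasSepRate IsSep exists_sepNum le_sepNum
  one_le_sepNum)

theorem dist_equiv {X : Type*} [MetricSpace X] : IsEquivMetric (fun x y : X => dist x y) where
  self := fun x => dist_self x
  eq_of := fun x y h => dist_eq_zero.1 h
  symm := fun x y => dist_comm x y
  triangle := fun x y z => dist_triangle x y z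
  basis := fun x => by
    have := Metric.nhds_basis_ball (x := x)
    refine this.to_hasBasis (fun r hr => ⟨r, hr, ?_⟩) (fun r hr => ⟨r, hr, ?_⟩)
    · intro y hy
      rw [Metric.mem_ball, dist_comm]
      exact hy
    · intro y hy
      rw [Metric.mem_ball, dist_comm] at hy
      exact hy

theorem trunc_equiv {X : Type*} [MetricSpace X] {r : ℝ} (hr : 0 < r) :
    IsEquivMetric (fun x y : X => min (dist x y) r) where
  self := fun x => by simp [hr.le]
  eq_of := fun x y h => by
    rcases le_total (dist x y) r with h1 | h1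
    · rw [min_eq_left h1] at h
      exact dist_eq_zero.1 h
    · rw [min_eq_right h1] at h
      exact absurd h hr.ne'
  symm := fun x y => by rw [dist_comm]
  triangle := fun x y z => by
    have h1 := dist_triangle x y z
    have h2 : (0 : ℝ) ≤ dist x y := dist_nonneg
    have h3 : (0 : ℝ) ≤ dist y z := dist_nonneg
    rcases le_total (dist x y) r with h4 | h4
    · rcases le_total (dist y z) r with h5 | h5
      · rw [min_eq_left h4, min_eq_left h5]
        exact (min_le_left _ _).trans h1
      · rw [min_eq_right h5]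
        have := min_le_right (dist x z) r
        have h6 : 0 ≤ min (dist x y) r := le_min h2 hr.le
        linarith
    · rw [min_eq_right h4]
      have := min_le_right (dist x z) r
      have h6 : 0 ≤ min (dist y z) r := le_min h3 hr.le
      linarith
  basis := fun x => by
    have := Metric.nhds_basis_ball (x := x)
    refine this.to_hasBasis (fun s hs => ⟨min s r, lt_min hs hr, ?_⟩) (fun s hs => ⟨s, hs, ?_⟩)
    · intro y hy
      simp only [mem_setOf_eq] at hy
      rw [Metric.mem_ball, dist_comm]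
      rcases le_total (dist x y) r with h1 | h1
      · rw [min_eq_left h1] at hy
        exact hy.trans_le (min_le_left _ _)
      · rw [min_eq_right h1] at hy
        exact absurd hy (not_lt.2 (min_le_right _ _))
    · intro y hy
      rw [Metric.mem_ball, dist_comm] at hy
      simp only [mem_setOf_eq]
      exact (min_le_left _ _).trans_lt hy

section
variable {X : Type*} [MetricSpace X] [CompactSpace X] (F : X → X)

theorem cov_nonempty {ε : ℝ} (hε : 0 < ε) (T : ℕ) :
    {n | ∃ φ : X → Fin n, ∀ x y, φ x = φ y → ∀ t < T, dist (F^[t] x) (F^[t] y) ≤ ε}.Nonempty := by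
  obtain ⟨n, -, κ, hκ⟩ := Pool.Agent.Helper42.Weiss.exists_label (dist_equiv (X := X)) hε
  let e := Fintype.equivFin (Fin T → Fin n)
  refine ⟨_, fun x => e (fun t : Fin T => κ (F^[t] x)), ?_⟩
  intro x y hxy t ht
  have h1 := e.injective hxy
  exact (hκ _ _ (congrFun h1 ⟨t, ht⟩)).le

theorem cov_spec {ε : ℝ} (hε : 0 < ε) (T : ℕ) :
    ∃ φ : X → Fin (covN F ε T), ∀ x y, φ x = φ y → ∀ t < T, dist (F^[t] x) (F^[t] y) ≤ ε :=
  Nat.sInf_mem (cov_nonempty F hε T)

omit [CompactSpace X] in
theorem covN_le_of {ε : ℝ} {T n : ℕ} (φ : X → Fin n)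
    (h : ∀ x y, φ x = φ y → ∀ t < T, dist (F^[t] x) (F^[t] y) ≤ ε) : covN F ε T ≤ n :=
  Nat.sInf_le ⟨φ, h⟩

theorem covN_pos [Nonempty X] {ε : ℝ} (hε : 0 < ε) (T : ℕ) : 0 < covN F ε T := by
  obtain ⟨φ, -⟩ := cov_spec F hε T
  obtain ⟨x⟩ := ‹Nonempty X›
  exact (Nat.zero_le _).trans_lt (φ x).2

theorem covN_add {ε : ℝ} (hε : 0 < ε) (T S : ℕ) :
    covN F ε (T + S) ≤ covN F ε T * covN F ε S := by
  obtain ⟨φ, hφ⟩ := cov_spec F hε T
  obtain ⟨ψ, hψ⟩ := cov_spec F hε S
  refine covN_le_of F (fun x => finProdFinEquiv (φ x, ψ (F^[T] x))) ?_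
  intro x y hxy t ht
  have h1 := finProdFinEquiv.injective hxy
  rw [Prod.mk.injEq] at h1
  rcases lt_or_ge t T with h2 | h2
  · exact hφ x y h1.1 t h2
  · have h3 := hψ _ _ h1.2 (t - T) (by omega)
    rw [← Function.iterate_add_apply, ← Function.iterate_add_apply, Nat.sub_add_cancel h2] at h3
    exact h3

theorem sub_log [Nonempty X] {ε : ℝ} (hε : 0 < ε) :
    Subadditive (fun T => Real.log (covN F ε T)) := by
  intro T S
  have h1 : (0 : ℝ) < covN F ε T := by exact_mod_cast covN_pos F hε T
  have h2 : (0 : ℝ) < covN F ε S := by exact_mod_cast covN_pos F hε S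
  have h3 : (0 : ℝ) < covN F ε (T + S) := by exact_mod_cast covN_pos F hε (T + S)
  rw [← Real.log_mul h1.ne' h2.ne']
  refine Real.log_le_log h3 ?_
  exact_mod_cast covN_add F hε T S

omit [CompactSpace X] in
theorem log_nonneg' (ε : ℝ) (T : ℕ) : 0 ≤ Real.log (covN F ε T) := Real.log_natCast_nonneg _

omit [CompactSpace X] in
theorem covR_le (ε : ℝ) {T : ℕ} (hT : 0 < T) : covR F ε ≤ Real.log (covN F ε T) / T := by
  obtain ⟨S, rfl⟩ : ∃ S, T = S + 1 := ⟨T - 1, by omega⟩
  have h := ciInf_le (f := fun T : ℕ => Real.log (covN F ε (T + 1)) / ((T : ℝ) + 1)) ?_ S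
  · push_cast
    exact h
  · refine ⟨0, ?_⟩
    rintro _ ⟨T, rfl⟩
    exact div_nonneg (log_nonneg' F ε _) (by positivity)

theorem tendsto_covR [Nonempty X] {ε : ℝ} (hε : 0 < ε) :
    Tendsto (fun T : ℕ => Real.log (covN F ε T) / T) atTop (𝓝 (covR F ε)) := by
  have h := (sub_log F hε).tendsto_lim ⟨0, by
    rintro _ ⟨T, rfl⟩
    exact div_nonneg (log_nonneg' F ε _) (by positivity)⟩
  have h1 : (sub_log F hε).lim = covR F ε := by
    unfold Subadditive.lim covR
    rw [iInf]
    congr 1
    ext z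
    constructor
    · rintro ⟨T, hT, rfl⟩
      have hT' : 1 ≤ T := hT
      refine ⟨T - 1, ?_⟩
      obtain ⟨S, rfl⟩ : ∃ S, T = S + 1 := ⟨T - 1, by omega⟩
      simp
    · rintro ⟨T, rfl⟩
      refine ⟨T + 1, ?_, ?_⟩
      · simp
      · simp
  rw [h1] at h
  exact h

end

theorem covN_le {X : Type*} [MetricSpace X] [CompactSpace X] (F : X → X) (hFc : Continuous F)
    (ε : ℝ) (hε : 0 < ε) (κ : ℝ) (hκ : 0 < κ) : ∃ T₀ : ℕ, ∀ T ≥ T₀, ∃ (N : ℕ) (φ : X → Fin N),
      (∀ x y, φ x = φ y → ∀ t < T, dist (F^[t] x) (F^[t] y) ≤ ε) ∧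
      (N : ℝ) ≤ Real.exp (T * (covR F ε + κ)) := by
  rcases isEmpty_or_nonempty X with hX | hX
  · refine ⟨0, fun T _ => ⟨0, fun x => hX.elim x, fun x => hX.elim x, ?_⟩⟩
    rw [Nat.cast_zero]
    exact (Real.exp_pos _).le
  · have h := tendsto_covR F hε
    have h1 : ∀ᶠ T : ℕ in atTop, Real.log (covN F ε T) / T < covR F ε + κ :=
      h.eventually_lt_const (by linarith)
    obtain ⟨T₀, hT₀⟩ := eventually_atTop.1 h1
    refine ⟨max T₀ 1, fun T hT => ?_⟩
    obtain ⟨φ, hφ⟩ := cov_spec F hε T
    refine ⟨_, φ, hφ, ?_⟩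
    have hT1 : 1 ≤ T := (le_max_right _ _).trans hT
    have hTpos : (0 : ℝ) < T := by exact_mod_cast hT1
    have h2 := hT₀ T ((le_max_left _ _).trans hT)
    rw [div_lt_iff₀ hTpos] at h2
    have h3 : (0 : ℝ) < covN F ε T := by exact_mod_cast covN_pos F hε T
    rw [← Real.exp_log h3]
    refine Real.exp_le_exp.2 ?_
    linarith

theorem exp_covR_le {X : Type*} [MetricSpace X] [CompactSpace X] [Nonempty X] (F : X → X)
    {ε : ℝ} (hε : 0 < ε) {T : ℕ} (hT : 0 < T) :
    Real.exp (covR F ε * T) ≤ covN F ε T := by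
  have h3 : (0 : ℝ) < covN F ε T := by exact_mod_cast covN_pos F hε T
  have hT' : (0 : ℝ) < T := by exact_mod_cast hT
  have h := covR_le F ε hT
  rw [le_div_iff₀ hT'] at h
  calc Real.exp (covR F ε * T) ≤ Real.exp (Real.log (covN F ε T)) := Real.exp_le_exp.2 h
    _ = covN F ε T := Real.exp_log h3

theorem sep_ge {X : Type*} [MetricSpace X] [CompactSpace X] [Nonempty X] (F : X → X)
    (hFc : Continuous F) (ε : ℝ) (hε : 0 < ε) (T : ℕ) (hT : 0 < T) : ∃ E : Finset X,
      (∀ x ∈ E, ∀ y ∈ E, x ≠ y → ∃ t < T, ε / 2 < dist (F^[t] x) (F^[t] y)) ∧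
      Real.exp (covR F ε * T) ≤ E.card := by
  classical
  obtain ⟨E, hE, hs⟩ := exists_sepNum (dist_equiv (X := X)) F (half_pos hε) T
  refine ⟨E, hs, (exp_covR_le F hε hT).trans ?_⟩
  have hmax : ∀ x, ∃ y ∈ E, ∀ t < T, dist (F^[t] x) (F^[t] y) ≤ ε / 2 := by
    intro x
    by_contra hcon
    push Not at hcon
    have hx : x ∉ E := by
      intro hx
      obtain ⟨t, ht, h⟩ := hcon x hx
      rw [dist_self] at h
      linarith
    have h1 : IsSep (fun x y : X => dist x y) F (ε / 2) T (insert x E) := by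
      intro a ha b hb hab
      rw [Finset.mem_insert] at ha hb
      rcases ha with rfl | ha
      · rcases hb with rfl | hb
        · exact absurd rfl hab
        · exact hcon b hb
      · rcases hb with rfl | hb
        · obtain ⟨t, ht, h⟩ := hcon a ha
          exact ⟨t, ht, by simpa only [dist_comm] using h⟩
        · exact hs a ha b hb hab
    have h2 := le_sepNum (dist_equiv (X := X)) (half_pos hε) h1
    rw [Finset.card_insert_of_notMem hx, ← hE] at h2
    omega
  choose c hc1 hc2 using hmax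
  have h3 : covN F ε T ≤ E.card := by
    refine covN_le_of F (fun x => E.equivFin ⟨c x, hc1 x⟩) ?_
    intro x y hxy t ht
    have h4 : c x = c y := by
      have := E.equivFin.injective hxy
      simpa using this
    have h5 := hc2 x t ht
    have h6 := hc2 y t ht
    rw [← h4] at h6
    have h7 := dist_triangle (F^[t] x) (F^[t] (c x)) (F^[t] y)
    rw [dist_comm (F^[t] (c x)) (F^[t] y)] at h7
    linarith
  exact_mod_cast h3

theorem covR_nonneg {X : Type*} [MetricSpace X] [CompactSpace X] [Nonempty X] (F : X → X)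
    (ε : ℝ) : 0 ≤ covR F ε :=
  Real.iInf_nonneg (fun T => div_nonneg (log_nonneg' F ε _) (by positivity))

theorem plateau {X : Type*} [MetricSpace X] [CompactSpace X] [Nonempty X] (F : X → X)
    (hFc : Continuous F) (ε₀ : ℝ) (hε₀ : 0 < ε₀) (h : ∀ ε > 0, covR F ε ≤ covR F ε₀) :
    ∃ D : X → X → ℝ, Pool.Agent.Helper42.Weiss.IsEquivMetric D ∧
      ∀ ε > 0, Pool.Agent.Helper42.Weiss.HasSepRate D F ε := by
  classical
  have hr : 0 < ε₀ / 2 := half_pos hε₀
  refine ⟨fun x y => min (dist x y) (ε₀ / 2), trunc_equiv hr, fun ε hε => ?_⟩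
  rcases le_or_gt (ε₀ / 2) ε with h1 | h1
  · refine ⟨0, ?_⟩
    have h2 : ∀ T : ℕ, sepNum (fun x y : X => min (dist x y) (ε₀ / 2)) F ε T = 1 := by
      intro T
      refine le_antisymm ?_ (one_le_sepNum (trunc_equiv hr) F hε T)
      obtain ⟨E, hE, hs⟩ := exists_sepNum (trunc_equiv (X := X) hr) F hε T
      rw [← hE, Finset.card_le_one]
      intro a ha b hb
      by_contra hab
      obtain ⟨t, -, h3⟩ := hs a ha b hb hab
      exact absurd (h3.trans_le (min_le_right _ _)) (not_lt.2 h1)
    have h3 : (fun T : ℕ => Real.log (sepNum (fun x y : X => min (dist x y) (ε₀ / 2)) F ε T) / T)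
        = fun _ => 0 := by
      funext T
      rw [h2]
      simp
    rw [h3]
    exact tendsto_const_nhds
  · refine ⟨covR F ε₀, ?_⟩
    have hup : ∀ T : ℕ, 0 < T →
        Real.log (sepNum (fun x y : X => min (dist x y) (ε₀ / 2)) F ε T) / T ≤
          Real.log (covN F ε T) / T := by
      intro T hT
      obtain ⟨E, hE, hs⟩ := exists_sepNum (trunc_equiv (X := X) hr) F hε T
      obtain ⟨φ, hφ⟩ := cov_spec F hε T
      have h2 : E.card ≤ covN F ε T := by
        have h3 := Finset.card_le_card_of_injOn (s := E)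
          (t := (Finset.univ : Finset (Fin (covN F ε T)))) φ
          (fun _ _ => Finset.mem_coe.2 (Finset.mem_univ _)) (by
            intro x hx y hy hxy
            by_contra hne
            obtain ⟨t, ht, h4⟩ := hs x hx y hy hne
            exact absurd (h4.trans_le (min_le_left _ _)) (not_lt.2 (hφ x y hxy t ht)))
        simpa using h3
      rw [← hE]
      have h5 : 0 < E.card := by
        rw [hE]
        exact one_le_sepNum (trunc_equiv hr) F hε T
      refine div_le_div_of_nonneg_right (Real.log_le_log ?_ ?_) (by positivity)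
      · exact_mod_cast h5
      · exact_mod_cast h2
    have hlow : ∀ T : ℕ, 0 < T → covR F ε₀ ≤
        Real.log (sepNum (fun x y : X => min (dist x y) (ε₀ / 2)) F ε T) / T := by
      intro T hT
      obtain ⟨E, hE, hc⟩ := sep_ge F hFc ε₀ hε₀ T hT
      have h2 : E.card ≤ sepNum (fun x y : X => min (dist x y) (ε₀ / 2)) F ε T := by
        refine le_sepNum (trunc_equiv hr) hε ?_
        intro x hx y hy hne
        obtain ⟨t, ht, h3⟩ := hE x hx y hy hne
        exact ⟨t, ht, lt_min (h1.trans h3) h1⟩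
      have hT' : (0 : ℝ) < T := by exact_mod_cast hT
      rw [le_div_iff₀ hT', Real.le_log_iff_exp_le]
      · refine hc.trans ?_
        exact_mod_cast h2
      · have := one_le_sepNum (trunc_equiv (X := X) hr) F hε T
        exact_mod_cast this
    have hlim := tendsto_covR F hε
    have heq : covR F ε = covR F ε₀ := by
      refine le_antisymm (h ε hε) ?_
      refine ge_of_tendsto hlim ?_
      filter_upwards [eventually_gt_atTop 0] with T hT
      exact (hlow T hT).trans (hup T hT)
    rw [heq] at hlim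
    refine tendsto_of_tendsto_of_tendsto_of_le_of_le' tendsto_const_nhds hlim ?_ ?_
    · filter_upwards [eventually_gt_atTop 0] with T hT
      exact hlow T hT
    · filter_upwards [eventually_gt_atTop 0] with T hT
      exact hup T hT

end Pool.Agent.Helper50.Weiss
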